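import Pool.Agent.MP_88c4e5_co.H76.LowDim
import Pool.Agent.MP_88c4e5_co.H76.Tree

namespace Pool.Agent.Results.MP_88c4e5_co.Q1EveryDim

open Pool.Agent.MP_88c4e5_co.H68 Pool.Agent.MP_88c4e5_co.H76

universe u

/-- Q1: a lattice identity failing in some lattice holds in all the completions coming from
central arrangements in real `d`-space exactly when `d ≤ 3`. -/
theorem result (d : ℕ) :
    (∃ p q : Term, (∃ (L : Type u) (_ : Lattice L), ¬ Holds L p q) ∧
      ∀ (A : Arrangement d) (B : A.Region), Holds (DM A B) p q) ↔ d ≤ 3 :=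
  ⟨fun ⟨p, q, ⟨L, _, hL⟩, H⟩ => by
      by_contra hd
      exact hL (holds_of_holds_DM4 d (by omega) p q H L),
    fun hd => ⟨_, _, low_fails, fun A B => low_holds hd A B⟩⟩

end Pool.Agent.Results.MP_88c4e5_co.Q1EveryDim
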