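import Pool.Agent.MP_88c4e5_co.H68.NoQuasi
import Pool.Agent.MP_88c4e5_co.H68.FixedDim

namespace Pool.Agent.Results.MP_88c4e5_co.Q2Quasi

open Pool.Agent.MP_88c4e5_co.H68

universe u

/-- Q2. First part (no): a quasi-identity valid in all the completions, over all dimensions, is
valid in every lattice. Second part (yes): for each dimension some quasi-identity that fails in a
lattice is valid in all the completions of that dimension. -/
theorem result :
    (∀ (hyps : List (Term × Term)) (p q : Term),
      (∀ d : ℕ, 1 ≤ d → ∀ (A : Arrangement d) (B : A.Region), QHolds (DM A B) hyps p q) →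
        ∀ (L : Type u) [Lattice L], QHolds L hyps p q) ∧
    (∀ d : ℕ, 1 ≤ d → ∃ (hyps : List (Term × Term)) (p q : Term),
      (∃ (L : Type) (_ : Lattice L), ¬ QHolds L hyps p q) ∧
        ∀ (A : Arrangement d) (B : A.Region), QHolds (DM A B) hyps p q) :=
  ⟨fun hyps p q H L _ => qholds_of_qholds_DM hyps p q H L,
    fun d _ => ⟨prem d, _, _, ⟨_, inferInstance, quasi_fails d⟩, fun A B => quasi_holds A B⟩⟩

end Pool.Agent.Results.MP_88c4e5_co.Q2Quasi
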